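import Pool.Agent.LPR.Stmts

/-!
# Row LOC of the squad LPR (MP_005a41_gt)

Transport of the functions which vanish off an open set to the chart.
-/

set_option autoImplicit false

open Set Topology

namespace Pool.Agent.LPR.H65

open Pool.Agent.LSG Pool.Agent.LPR

open Classical in
/-- Extension by zero of a function on the chart, with a parameter. -/
theorem glue {X Y P : Type} [TopologicalSpace X] [TopologicalSpace Y] [TopologicalSpace P]
    (N : Set X) (e : ↥N ≃ₜ Y) (O : Set X) (hO : IsOpen O) (hN : closure O ⊆ N)
    (G : Y × P → ℝ) (hG : Continuous G) (hG0 : ∀ y, (e.symm y : X) ∉ O → ∀ p, G (y, p) = 0) :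
    Continuous fun q : X × P => if h : q.1 ∈ N then G (e ⟨q.1, h⟩, q.2) else 0 := by
  have hcov : (closure O ×ˢ (univ : Set P)) ∪ (Oᶜ ×ˢ (univ : Set P)) = univ := by
    refine Set.eq_univ_of_forall fun q => ?_
    by_cases h : q.1 ∈ O
    · exact Or.inl ⟨subset_closure h, trivial⟩
    · exact Or.inr ⟨h, trivial⟩
  rw [← continuousOn_univ, ← hcov]
  refine ContinuousOn.union_of_isClosed ?_ ?_ (isClosed_closure.prod isClosed_univ)
    (hO.isClosed_compl.prod isClosed_univ)
  · rw [continuousOn_iff_continuous_restrict]
    have h1 : (closure O ×ˢ (univ : Set P)).domRestrict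
        (fun q : X × P => if h : q.1 ∈ N then G (e ⟨q.1, h⟩, q.2) else 0) =
        fun q => G (e ⟨q.1.1, hN q.2.1⟩, q.1.2) := by
      funext q
      exact dif_pos (hN q.2.1)
    rw [h1]
    exact hG.comp ((e.continuous.comp (Continuous.subtype_mk
      (continuous_fst.comp continuous_subtype_val) _)).prodMk
        (continuous_snd.comp continuous_subtype_val))
  · refine (continuousOn_const (c := (0 : ℝ))).congr fun q hq => ?_
    show (if h : q.1 ∈ N then G (e ⟨q.1, h⟩, q.2) else 0) = 0
    split_ifs with h
    · refine hG0 _ ?_ _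
      rw [e.symm_apply_apply]
      exact hq.1
    · rfl

/-- Transport to the chart. -/
theorem loc : LocStmt := by
  classical
  intro X S _ _ N e O hO hN
  have hcs : Continuous fun y : S × unitInterval => (e.symm y : X) :=
    continuous_subtype_val.comp e.symm.continuous
  refine ⟨{y | (e.symm y : X) ∈ O}, hO.preimage hcs, ⟨?_⟩, ⟨?_⟩⟩
  · refine
      { toFun := fun f => ⟨fun y => f.1 (e.symm y), f.2.1.comp hcs, fun y hy => f.2.2 _ hy⟩
        map_add' := fun _ _ => rfl
        map_smul' := fun _ _ => rfl
        invFun := fun g => ⟨fun x => if h : x ∈ N then g.1 (e ⟨x, h⟩) else 0, ?_, ?_⟩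
        left_inv := ?_
        right_inv := ?_
        continuous_toFun := ?_
        continuous_invFun := ?_ }
    · have h1 := glue (P := Unit) N e O hO hN (fun q => g.1 q.1) (g.2.1.comp continuous_fst)
        (fun y hy _ => g.2.2 y hy)
      exact h1.comp (continuous_id.prodMk (continuous_const (y := ())))
    · intro x hx
      show (if h : x ∈ N then g.1 (e ⟨x, h⟩) else 0) = 0
      split_ifs with h
      · refine g.2.2 _ ?_
        show ¬ ((e.symm (e ⟨x, h⟩) : X) ∈ O)
        rw [e.symm_apply_apply]
        exact hx
      · rfl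
    · intro f
      refine Subtype.ext (funext fun x => ?_)
      show (if h : x ∈ N then f.1 (e.symm (e ⟨x, h⟩)) else 0) = f.1 x
      split_ifs with h
      · rw [e.symm_apply_apply]
      · exact (f.2.2 x fun hx => h (hN (subset_closure hx))).symm
    · intro g
      refine Subtype.ext (funext fun y => ?_)
      show (if h : (e.symm y : X) ∈ N then g.1 (e ⟨e.symm y, h⟩) else 0) = g.1 y
      rw [dif_pos (e.symm y).2]
      show g.1 (e (e.symm y)) = g.1 y
      rw [e.apply_symm_apply]
    · have h1 : Continuous fun f : ↥(Fo O) => fun y : S × unitInterval =>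
          (f.1 : X → ℝ) (e.symm y) :=
        continuous_pi fun y => (continuous_apply (e.symm y : X)).comp continuous_subtype_val
      exact h1.subtype_mk _
    · refine Continuous.subtype_mk (continuous_pi fun x => ?_) _
      by_cases h : x ∈ N
      · have h1 : (fun g : ↥(Fo {y | (e.symm y : X) ∈ O}) =>
            if h : x ∈ N then g.1 (e ⟨x, h⟩) else 0) = fun g => g.1 (e ⟨x, h⟩) := by
          funext g
          exact dif_pos h
        show Continuous (fun g : ↥(Fo {y | (e.symm y : X) ∈ O}) =>
            if h : x ∈ N then g.1 (e ⟨x, h⟩) else 0)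
        rw [h1]
        exact (continuous_apply (e ⟨x, h⟩)).comp continuous_subtype_val
      · have h1 : (fun g : ↥(Fo {y | (e.symm y : X) ∈ O}) =>
            if h : x ∈ N then g.1 (e ⟨x, h⟩) else 0) = fun g => 0 := by
          funext g
          exact dif_neg h
        show Continuous (fun g : ↥(Fo {y | (e.symm y : X) ∈ O}) =>
            if h : x ∈ N then g.1 (e ⟨x, h⟩) else 0)
        rw [h1]
        exact continuous_const
  · refine
      { toFun := fun f => ⟨fun y => f.1 ((e.symm y.1 : X), y.2),
          f.2.1.comp ((hcs.comp continuous_fst).prodMk continuous_snd),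
          fun y hy n => f.2.2.1 _ hy n, fun y => f.2.2.2 _⟩
        map_add' := fun _ _ => rfl
        map_smul' := fun _ _ => rfl
        invFun := fun g => ⟨fun q => if h : q.1 ∈ N then g.1 (e ⟨q.1, h⟩, q.2) else 0, ?_, ?_, ?_⟩
        left_inv := ?_
        right_inv := ?_
        continuous_toFun := ?_
        continuous_invFun := ?_ }
    · exact glue N e O hO hN g.1 g.2.1 (fun y hy p => g.2.2.1 y hy p)
    · intro x hx n
      show (if h : x ∈ N then g.1 (e ⟨x, h⟩, n) else 0) = 0
      split_ifs with h
      · refine g.2.2.1 _ ?_ n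
        show ¬ ((e.symm (e ⟨x, h⟩) : X) ∈ O)
        rw [e.symm_apply_apply]
        exact hx
      · rfl
    · intro x
      show (if h : x ∈ N then g.1 (e ⟨x, h⟩, OnePoint.infty) else 0) = 0
      split_ifs with h
      · exact g.2.2.2 _
      · rfl
    · intro f
      refine Subtype.ext (funext fun q => ?_)
      show (if h : q.1 ∈ N then f.1 ((e.symm (e ⟨q.1, h⟩) : X), q.2) else 0) = f.1 q
      split_ifs with h
      · rw [e.symm_apply_apply]
      · exact (f.2.2.1 q.1 (fun hx => h (hN (subset_closure hx))) q.2).symm
    · intro g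
      refine Subtype.ext (funext fun y => ?_)
      show (if h : (e.symm y.1 : X) ∈ N then g.1 (e ⟨e.symm y.1, h⟩, y.2) else 0) = g.1 y
      rw [dif_pos (e.symm y.1).2]
      show g.1 (e (e.symm y.1), y.2) = g.1 y
      rw [e.apply_symm_apply]
    · have h1 : Continuous fun f : ↥(Sg O) => fun y : (S × unitInterval) × OnePoint ℕ =>
          (f.1 : X × OnePoint ℕ → ℝ) ((e.symm y.1 : X), y.2) :=
        continuous_pi fun y =>
          (continuous_apply ((e.symm y.1 : X), y.2)).comp continuous_subtype_val
      exact h1.subtype_mk _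
    · refine Continuous.subtype_mk (continuous_pi fun q => ?_) _
      by_cases h : q.1 ∈ N
      · have h1 : (fun g : ↥(Sg {y | (e.symm y : X) ∈ O}) =>
            if h : q.1 ∈ N then g.1 (e ⟨q.1, h⟩, q.2) else 0) =
            fun g => g.1 (e ⟨q.1, h⟩, q.2) := by
          funext g
          exact dif_pos h
        show Continuous (fun g : ↥(Sg {y | (e.symm y : X) ∈ O}) =>
            if h : q.1 ∈ N then g.1 (e ⟨q.1, h⟩, q.2) else 0)
        rw [h1]
        exact (continuous_apply ((e ⟨q.1, h⟩, q.2) : (S × unitInterval) × OnePoint ℕ)).comp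
          continuous_subtype_val
      · have h1 : (fun g : ↥(Sg {y | (e.symm y : X) ∈ O}) =>
            if h : q.1 ∈ N then g.1 (e ⟨q.1, h⟩, q.2) else 0) = fun g => 0 := by
          funext g
          exact dif_neg h
        show Continuous (fun g : ↥(Sg {y | (e.symm y : X) ∈ O}) =>
            if h : q.1 ∈ N then g.1 (e ⟨q.1, h⟩, q.2) else 0)
        rw [h1]
        exact continuous_const

end Pool.Agent.LPR.H65
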